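import Pool.Agent.Run7.h932.DS.Stm
import Pool.Agent.N342.LF_ISO

/-!
# Pieces ISO and BAL of project DS (helper932), by helper594
-/

set_option autoImplicit false
set_option linter.all false

namespace Pool.Agent.Run7.h594.DS

open Finset Classical Run7.h932.DS

theorem t_ISO : S_ISO := by
  intro m A t ht
  have hcard : Fintype.card (HE m) = 2 * m := by
    simp [HE, mul_comm]
  let e : HE m ≃ Fin (2 * m) := Fintype.equivFinOfCardEq hcard
  let Φ : Equiv.Perm (HE m) ≃ (Unit → Equiv.Perm (Fin (2 * m))) :=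
    (Equiv.permCongr e).trans (Equiv.funUnique Unit _).symm
  have hΦ : ∀ π u x, Φ π u x = e (π (e.symm x)) := fun π u x => rfl
  have hhd : ∀ π π' : Equiv.Perm (HE m), Pool.Agent.N404.LF.hd (Φ π) (Φ π') =
      (univ.filter fun h => π h ≠ π' h).card := by
    intro π π'
    unfold Pool.Agent.N404.LF.hd
    refine Finset.card_bij' (fun p _ => e.symm p.2) (fun h _ => ((), e h)) ?_ ?_ ?_ ?_
    · rintro ⟨u, x⟩ hx
      simp only [Finset.mem_filter, Finset.mem_univ, true_and, hΦ] at hx ⊢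
      exact fun h => hx (by rw [h])
    · intro h hh
      simp only [Finset.mem_filter, Finset.mem_univ, true_and, hΦ, Equiv.symm_apply_apply] at hh ⊢
      exact fun h' => hh (e.injective h')
    · rintro ⟨u, x⟩ hx
      simp
    · intro h hh
      simp
  have hmain := Pool.Agent.N342.LFI.main Unit (2 * m) (A.map Φ.toEmbedding) t ht
  rw [Finset.card_map] at hmain
  have hB : (univ.filter fun π : Unit → Equiv.Perm (Fin (2 * m)) => ∀ π' ∈ A.map Φ.toEmbedding,
      t ≤ (Pool.Agent.N404.LF.hd π π' : ℝ)).card = (univ.filter fun π : Equiv.Perm (HE m) =>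
        ∀ π' ∈ A, t ≤ ((univ.filter fun h => π h ≠ π' h).card : ℝ)).card := by
    symm
    refine Finset.card_bij (fun π _ => Φ π) ?_ ?_ ?_
    · intro π hπ
      simp only [Finset.mem_filter, Finset.mem_univ, true_and] at hπ ⊢
      intro π' hπ'
      obtain ⟨ρ, hρ, rfl⟩ := Finset.mem_map.1 hπ'
      rw [Equiv.coe_toEmbedding, hhd]
      exact hπ ρ hρ
    · intro a _ b _ hab
      exact Φ.injective hab
    · intro π hπ
      refine ⟨Φ.symm π, ?_, Φ.apply_symm_apply π⟩
      simp only [Finset.mem_filter, Finset.mem_univ, true_and] at hπ ⊢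
      intro π' hπ'
      have h1 := hπ (Φ π') (Finset.mem_map.2 ⟨π', hπ', rfl⟩)
      rw [← Φ.apply_symm_apply π, hhd] at h1
      exact h1
  rw [hB] at hmain
  refine hmain.trans (le_of_eq ?_)
  rw [Fintype.card_unit, pow_one]
  congr 3
  push_cast
  ring

/-! ### BAL -/

theorem sum_fun {n k : ℕ} (H : Fin n → Fin k → ℝ) :
    ∑ σ : Fin n → Fin k, ∏ y, H y (σ y) = ∏ y, ∑ i, H y i := by
  rw [Finset.prod_univ_sum, Fintype.piFinset_univ]

theorem two_pt {n k : ℕ} (f : Fin k → ℝ) (hf : ∑ i, f i = 0) (x y : Fin n) (hxy : x ≠ y) :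
    ∑ σ : Fin n → Fin k, f (σ x) * f (σ y) = 0 := by
  have h1 : ∀ σ : Fin n → Fin k, f (σ x) * f (σ y) =
      ∏ z, (if z = x then f (σ z) else if z = y then f (σ z) else 1) := by
    intro σ
    rw [← Finset.mul_prod_erase univ _ (Finset.mem_univ x), if_pos rfl]
    congr 1
    rw [← Finset.mul_prod_erase (univ.erase x) _ (Finset.mem_erase.2 ⟨hxy.symm, Finset.mem_univ y⟩),
      if_neg hxy.symm, if_pos rfl]
    rw [Finset.prod_eq_one, mul_one]
    intro z hz
    rw [Finset.mem_erase, Finset.mem_erase] at hz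
    rw [if_neg hz.2.1, if_neg hz.1]
  simp only [h1]
  rw [sum_fun (fun z i => if z = x then f i else if z = y then f i else 1)]
  apply Finset.prod_eq_zero (Finset.mem_univ x)
  simp only [if_pos]
  exact hf

theorem one_pt {n k : ℕ} (hk : 1 ≤ k) (f : Fin k → ℝ) (x : Fin n) :
    k * ∑ σ : Fin n → Fin k, f (σ x) = (k : ℝ) ^ n * ∑ i, f i := by
  have h1 : ∀ σ : Fin n → Fin k, f (σ x) = ∏ z, (if z = x then f (σ z) else 1) := by
    intro σ
    rw [← Finset.mul_prod_erase univ _ (Finset.mem_univ x), if_pos rfl, Finset.prod_eq_one, mul_one]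
    intro z hz
    rw [Finset.mem_erase] at hz
    rw [if_neg hz.1]
  simp only [h1]
  rw [sum_fun (fun z i => if z = x then f i else 1),
    ← Finset.mul_prod_erase univ _ (Finset.mem_univ x)]
  simp only [if_pos]
  have h2 : ∏ z ∈ univ.erase x, ∑ i : Fin k, (if z = x then f i else (1 : ℝ)) = (k : ℝ) ^ (n - 1) := by
    have h3 : ∀ z ∈ univ.erase x, ∑ i : Fin k, (if z = x then f i else (1 : ℝ)) = k := by
      intro z hz
      rw [Finset.mem_erase] at hz
      simp [hz.1]
    rw [Finset.prod_congr rfl h3, Finset.prod_const, Finset.card_erase_of_mem (Finset.mem_univ x),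
      Finset.card_univ, Fintype.card_fin]
  rw [h2]
  have hn : 1 ≤ n := by
    have := x.2
    omega
  obtain ⟨n', rfl⟩ := Nat.exists_eq_add_of_le hn
  rw [show 1 + n' - 1 = n' by omega, pow_add, pow_one]
  ring

/-- the second moment -/
theorem var {n k : ℕ} (hk : 1 ≤ k) (f : Fin k → ℝ) (hf : ∑ i, f i = 0) (c : Fin n → ℝ) :
    k * ∑ σ : Fin n → Fin k, (∑ x, c x * f (σ x)) ^ 2 =
      (k : ℝ) ^ n * (∑ i, f i ^ 2) * ∑ x, c x ^ 2 := by
  have h1 : ∑ σ : Fin n → Fin k, (∑ x, c x * f (σ x)) ^ 2 =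
      ∑ x, ∑ y, c x * c y * ∑ σ : Fin n → Fin k, f (σ x) * f (σ y) := by
    have h2 : ∀ σ : Fin n → Fin k, (∑ x, c x * f (σ x)) ^ 2 =
        ∑ x, ∑ y, c x * c y * (f (σ x) * f (σ y)) := by
      intro σ
      rw [sq, Finset.sum_mul_sum]
      refine Finset.sum_congr rfl fun x _ => Finset.sum_congr rfl fun y _ => ?_
      ring
    simp only [h2]
    rw [Finset.sum_comm]
    refine Finset.sum_congr rfl fun x _ => ?_
    rw [Finset.sum_comm]
    refine Finset.sum_congr rfl fun y _ => ?_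
    rw [Finset.mul_sum]
  rw [h1, Finset.mul_sum, Finset.mul_sum]
  refine Finset.sum_congr rfl fun x _ => ?_
  rw [Finset.sum_eq_single x]
  · have h3 := one_pt hk (fun i => f i ^ 2) x
    have h4 : ∑ σ : Fin n → Fin k, f (σ x) * f (σ x) = ∑ σ : Fin n → Fin k, f (σ x) ^ 2 :=
      Finset.sum_congr rfl fun σ _ => by ring
    rw [h4]
    rw [show (k : ℝ) * (c x * c x * ∑ σ : Fin n → Fin k, f (σ x) ^ 2) =
      (k * ∑ σ : Fin n → Fin k, f (σ x) ^ 2) * c x ^ 2 by ring, h3]
  · intro y _ hy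
    rw [two_pt f hf x y hy.symm, mul_zero]
  · intro h
    exact absurd (Finset.mem_univ x) h

theorem cnt_eq {X A : Type} [Fintype X] [DecidableEq A] (f : X → A) (a : A) :
    cnt f a = (univ.filter fun x => f x = a).card := by
  unfold cnt
  congr!

theorem cnt_sum {n m k : ℕ} (v : HE m → Fin n) (σ : Fin n → Fin k) (a : Fin k) :
    (cnt (fun h => σ (v h)) a : ℝ) = ∑ x, (cnt v x : ℝ) * (if σ x = a then 1 else 0) := by
  simp only [cnt_eq]
  have h1 : (univ.filter fun h => σ (v h) = a).card =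
      ∑ x, ((univ.filter fun h => σ (v h) = a).filter fun h => v h = x).card :=
    Finset.card_eq_sum_card_fiberwise fun h _ => Finset.mem_coe.2 (Finset.mem_univ _)
  rw [h1]
  push_cast
  refine Finset.sum_congr rfl fun x _ => ?_
  split_ifs with hx
  · rw [mul_one]
    congr 2
    ext h
    simp only [Finset.mem_filter, Finset.mem_univ, true_and]
    constructor
    · exact fun h' => h'.2
    · intro h'
      exact ⟨by rw [h']; exact hx, h'⟩
  · rw [mul_zero, Nat.cast_eq_zero, Finset.card_eq_zero, Finset.filter_eq_empty_iff]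
    intro h hh h'
    rw [Finset.mem_filter] at hh
    rw [h'] at hh
    exact hx hh.2

theorem cnt_tot {n m : ℕ} (v : HE m → Fin n) : ∑ x, (cnt v x : ℝ) = 2 * m := by
  have h1 : (univ : Finset (HE m)).card = ∑ x, (univ.filter fun h => v h = x).card :=
    Finset.card_eq_sum_card_fiberwise fun h _ => Finset.mem_coe.2 (Finset.mem_univ _)
  have h2 : (univ : Finset (HE m)).card = 2 * m := by
    rw [Finset.card_univ]
    simp [HE, mul_comm]
  rw [h2] at h1
  simp only [cnt_eq]
  exact_mod_cast h1.symm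

theorem t_BAL : S_BAL := by
  intro n m k Δ v w hk hw hΔ hm
  have hk0 : (0 : ℝ) < k := by exact_mod_cast hk
  set f : Fin k → Fin k → ℝ := fun a i => (if i = a then 1 else 0) - 1 / k with hf
  have hf0 : ∀ a, ∑ i, f a i = 0 := by
    intro a
    rw [hf]
    simp only [Finset.sum_sub_distrib, Finset.sum_ite_eq', Finset.mem_univ, if_true,
      Finset.sum_const, Finset.card_univ, Fintype.card_fin, nsmul_eq_mul]
    field_simp
    ring
  have hf2 : ∀ a, ∑ i, f a i ^ 2 ≤ 1 := by
    intro a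
    have h1 : ∀ i, f a i ^ 2 = (if i = a then 1 - 2 / (k : ℝ) else 0) + 1 / (k : ℝ) ^ 2 := by
      intro i
      rw [hf]
      simp only
      split_ifs <;> ring
    simp only [h1]
    rw [Finset.sum_add_distrib, Finset.sum_ite_eq', if_pos (Finset.mem_univ a), Finset.sum_const,
      Finset.card_univ, Fintype.card_fin, nsmul_eq_mul]
    have h2 : (k : ℝ) * (1 / (k : ℝ) ^ 2) = 1 / k := by field_simp
    rw [h2]
    have h3 : 0 < 1 / (k : ℝ) := by positivity
    have h4 : 2 / (k : ℝ) = 2 * (1 / k) := by ring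
    rw [h4]
    linarith
  have hdev : ∀ (σ : Fin n → Fin k) a, (cnt (fun h => σ (v h)) a : ℝ) - 2 * m / k =
      ∑ x, (cnt v x : ℝ) * f a (σ x) := by
    intro σ a
    rw [cnt_sum]
    rw [hf]
    simp only [mul_sub]
    rw [Finset.sum_sub_distrib, ← Finset.sum_mul, cnt_tot]
    ring
  have hc2 : ∑ x, (cnt v x : ℝ) ^ 2 ≤ 2 * Δ * m := by
    calc ∑ x, (cnt v x : ℝ) ^ 2 ≤ ∑ x, (Δ : ℝ) * cnt v x := by
          refine Finset.sum_le_sum fun x _ => ?_
          rw [sq]
          exact mul_le_mul_of_nonneg_right (by exact_mod_cast hΔ x) (by positivity)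
      _ = _ := by rw [← Finset.mul_sum, cnt_tot]; ring
  have hvar : ∑ σ : Fin n → Fin k, ∑ a, ((cnt (fun h => σ (v h)) a : ℝ) - 2 * m / k) ^ 2 ≤
      (k : ℝ) ^ n * (2 * Δ * m) := by
    rw [Finset.sum_comm]
    have h1 : ∀ a : Fin k, k * ∑ σ : Fin n → Fin k, ((cnt (fun h => σ (v h)) a : ℝ) - 2 * m / k) ^ 2 ≤
        (k : ℝ) ^ n * (2 * Δ * m) := by
      intro a
      simp only [hdev]
      rw [var hk (f a) (hf0 a)]
      have h0 : 0 ≤ ∑ x, (cnt v x : ℝ) ^ 2 := Finset.sum_nonneg fun x _ => by positivity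
      have h2 : (k : ℝ) ^ n * ∑ i, f a i ^ 2 ≤ (k : ℝ) ^ n * 1 :=
        mul_le_mul_of_nonneg_left (hf2 a) (by positivity)
      rw [mul_one] at h2
      exact mul_le_mul h2 hc2 h0 (by positivity)
    have h2 : k * ∑ a : Fin k, ∑ σ : Fin n → Fin k,
        ((cnt (fun h => σ (v h)) a : ℝ) - 2 * m / k) ^ 2 ≤ k * ((k : ℝ) ^ n * (2 * Δ * m)) := by
      rw [Finset.mul_sum]
      refine (Finset.sum_le_sum fun a _ => h1 a).trans (le_of_eq ?_)
      rw [Finset.sum_const, Finset.card_univ, Fintype.card_fin, nsmul_eq_mul]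
    exact le_of_mul_le_mul_left h2 hk0
  have hbad : ((univ.filter fun σ : Fin n → Fin k => ¬ NB v w σ).card : ℝ) * w ^ 2 ≤
      (k : ℝ) ^ n * (2 * Δ * m) := by
    refine le_trans ?_ hvar
    have h1 : ((univ.filter fun σ : Fin n → Fin k => ¬ NB v w σ).card : ℝ) * w ^ 2 =
        ∑ σ ∈ univ.filter fun σ : Fin n → Fin k => ¬ NB v w σ, w ^ 2 := by
      rw [Finset.sum_const, nsmul_eq_mul]
    rw [h1]
    refine (Finset.sum_le_sum fun σ hσ => ?_).trans (Finset.sum_le_sum_of_subset_of_nonneg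
      (Finset.filter_subset _ _) fun σ _ _ => Finset.sum_nonneg fun a _ => by positivity)
    rw [Finset.mem_filter] at hσ
    have h2 := hσ.2
    unfold NB at h2
    push Not at h2
    obtain ⟨a, ha⟩ := h2
    have h3 : w ^ 2 ≤ ((cnt (fun h => σ (v h)) a : ℝ) - 2 * m / k) ^ 2 := by
      rw [← sq_abs ((cnt (fun h => σ (v h)) a : ℝ) - 2 * m / k)]
      exact pow_le_pow_left₀ hw.le ha.le 2
    refine h3.trans ?_
    exact Finset.single_le_sum (f := fun a => ((cnt (fun h => σ (v h)) a : ℝ) - 2 * m / k) ^ 2)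
      (fun i _ => by positivity) (Finset.mem_univ a)
  have htot : (k : ℝ) ^ n = ((univ.filter fun σ : Fin n → Fin k => NB v w σ).card : ℝ) +
      ((univ.filter fun σ : Fin n → Fin k => ¬ NB v w σ).card : ℝ) := by
    have h1 := Finset.card_filter_add_card_filter_not (s := (univ : Finset (Fin n → Fin k)))
      (fun σ => NB v w σ)
    have h2 : (univ : Finset (Fin n → Fin k)).card = k ^ n := by
      rw [Finset.card_univ]
      simp
    rw [h2] at h1
    exact_mod_cast h1.symm
  have hw2 : 0 < w ^ 2 := by positivity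
  have h5 : ((univ.filter fun σ : Fin n → Fin k => ¬ NB v w σ).card : ℝ) * 2 ≤ (k : ℝ) ^ n := by
    have h6 : ((univ.filter fun σ : Fin n → Fin k => ¬ NB v w σ).card : ℝ) * 2 * w ^ 2 ≤
        (k : ℝ) ^ n * w ^ 2 := by
      have h7 : (k : ℝ) ^ n * (4 * Δ * m) ≤ (k : ℝ) ^ n * w ^ 2 :=
        mul_le_mul_of_nonneg_left hm (by positivity)
      nlinarith
    exact le_of_mul_le_mul_right h6 hw2
  linarith

end Pool.Agent.Run7.h594.DS
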