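import Pool.Agent.Run7.h932.DS.Stm

/-!
# Piece SPA of project DS (helper932), by helper594
-/

set_option autoImplicit false
set_option linter.all false

namespace Pool.Agent.Run7.h594.DS

open Finset Classical Run7.h932.DS

/-- permutations which map `P` into `H` -/
theorem perm_bound {X : Type} [Fintype X] [DecidableEq X] (H : Finset X) (P : Finset X) :
    ((univ.filter fun π : Equiv.Perm X => ∀ x ∈ P, π x ∈ H).card : ℝ) *
      (Fintype.card X : ℝ) ^ P.card ≤
    (H.card : ℝ) ^ P.card * ((Fintype.card X).factorial : ℝ) := by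
  induction P using Finset.induction_on with
  | empty =>
    have h1 : (univ.filter fun π : Equiv.Perm X => ∀ x ∈ (∅ : Finset X), π x ∈ H) = univ := by
      ext π
      simp
    rw [h1, Finset.card_univ, Fintype.card_perm]
    simp
  | insert x P hx ih =>
    set A := univ.filter fun π : Equiv.Perm X => ∀ x ∈ P, π x ∈ H with hA
    set N := Fintype.card X with hN
    have hA' : (univ.filter fun π : Equiv.Perm X => ∀ z ∈ insert x P, π z ∈ H) =
        A.filter fun π => π x ∈ H := by
      ext π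
      simp only [hA, Finset.mem_filter, Finset.mem_univ, true_and, Finset.mem_insert,
        forall_eq_or_imp]
      tauto
    rw [hA']
    set a' := (A.filter fun π => π x ∈ H).card with ha'
    have h1 : ∀ y ∈ Pᶜ, (A.filter fun π => π y ∈ H).card = a' := by
      intro y hy
      have hyP : y ∉ P := Finset.mem_compl.1 hy
      have hz : ∀ z ∈ P, Equiv.swap x y z = z := fun z hz =>
        Equiv.swap_apply_of_ne_of_ne (fun h => hx (h ▸ hz)) (fun h => hyP (h ▸ hz))
      refine Finset.card_bij' (fun π _ => π * Equiv.swap x y) (fun π _ => π * Equiv.swap x y)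
        ?_ ?_ ?_ ?_
      · intro π hπ
        simp only [hA, Finset.mem_filter, Finset.mem_univ, true_and] at hπ ⊢
        refine ⟨fun z hz' => ?_, ?_⟩
        · rw [Equiv.Perm.mul_apply, hz z hz']
          exact hπ.1 z hz'
        · rw [Equiv.Perm.mul_apply, Equiv.swap_apply_left]
          exact hπ.2
      · intro π hπ
        simp only [hA, Finset.mem_filter, Finset.mem_univ, true_and] at hπ ⊢
        refine ⟨fun z hz' => ?_, ?_⟩
        · rw [Equiv.Perm.mul_apply, hz z hz']
          exact hπ.1 z hz'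
        · rw [Equiv.Perm.mul_apply, Equiv.swap_apply_right]
          exact hπ.2
      · intro π hπ
        rw [mul_assoc, Equiv.swap_mul_self, mul_one]
      · intro π hπ
        rw [mul_assoc, Equiv.swap_mul_self, mul_one]
    have h3 : ∀ π ∈ A, (Pᶜ.filter fun y => π y ∈ H).card + P.card = H.card := by
      intro π hπ
      have hπ' : ∀ z ∈ P, π z ∈ H := (Finset.mem_filter.1 hπ).2
      have e1 : (univ.filter fun y => π y ∈ H).card = H.card := by
        refine Finset.card_bij' (fun y _ => π y) (fun y _ => π.symm y) ?_ ?_ ?_ ?_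
        · intro y hy
          exact (Finset.mem_filter.1 hy).2
        · intro y hy
          simp [hy]
        · intro y hy
          simp
        · intro y hy
          simp
      rw [← e1, ← Finset.card_union_of_disjoint]
      · congr 1
        ext y
        simp only [Finset.mem_union, Finset.mem_filter, Finset.mem_compl, Finset.mem_univ, true_and]
        by_cases hy : y ∈ P
        · simp [hy, hπ' y hy]
        · simp [hy]
      · rw [Finset.disjoint_left]
        intro y hy hy'
        exact (Finset.mem_compl.1 (Finset.mem_filter.1 hy).1) hy'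
    have h2 : Pᶜ.card * a' = ∑ π ∈ A, (Pᶜ.filter fun y => π y ∈ H).card := by
      rw [← smul_eq_mul, ← Finset.sum_const, ← Finset.sum_congr rfl h1]
      simp only [Finset.card_filter]
      rw [Finset.sum_comm]
    have h4 : (Pᶜ.card : ℝ) * a' = ((H.card : ℝ) - P.card) * A.card := by
      have e1 : ((Pᶜ.card * a' : ℕ) : ℝ) = ∑ π ∈ A, ((Pᶜ.filter fun y => π y ∈ H).card : ℝ) := by
        rw [h2]
        push_cast
        rfl
      rw [Nat.cast_mul] at e1
      rw [e1, Finset.sum_congr rfl (fun π hπ => by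
        have := h3 π hπ
        have h' : ((Pᶜ.filter fun y => π y ∈ H).card : ℝ) + P.card = H.card := by exact_mod_cast this
        exact eq_sub_of_add_eq h' : ∀ π ∈ A, ((Pᶜ.filter fun y => π y ∈ H).card : ℝ) =
          (H.card : ℝ) - P.card), Finset.sum_const, nsmul_eq_mul]
      ring
    have hc : (Pᶜ.card : ℝ) = N - P.card := by
      have := Finset.card_compl_add_card P
      rw [← hN] at this
      have h' : (Pᶜ.card : ℝ) + P.card = N := by exact_mod_cast this
      linarith
    have hpos : 0 < Pᶜ.card := Finset.card_pos.2 ⟨x, Finset.mem_compl.2 hx⟩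
    have hpos' : (0 : ℝ) < Pᶜ.card := by exact_mod_cast hpos
    have hHN : (H.card : ℝ) ≤ N := by exact_mod_cast Finset.card_le_univ H
    rw [Finset.card_insert_of_notMem hx, pow_succ, pow_succ]
    have h5 : (Pᶜ.card : ℝ) * (a' * ((N : ℝ) ^ P.card * N)) ≤
        (Pᶜ.card : ℝ) * ((H.card : ℝ) ^ P.card * H.card * N.factorial) := by
      rcases le_or_gt (P.card : ℝ) H.card with hle | hlt
      · calc (Pᶜ.card : ℝ) * (a' * ((N : ℝ) ^ P.card * N)) =
            (Pᶜ.card * a') * ((N : ℝ) ^ P.card * N) := by ring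
          _ = (((H.card : ℝ) - P.card) * N) * (A.card * (N : ℝ) ^ P.card) := by rw [h4]; ring
          _ ≤ ((H.card : ℝ) * (N - P.card)) * ((H.card : ℝ) ^ P.card * N.factorial) := by
              refine mul_le_mul ?_ ih (by positivity) ?_
              · nlinarith [Nat.cast_nonneg (α := ℝ) P.card]
              · rw [← hc]
                positivity
          _ = _ := by rw [hc]; ring
      · have h6 : (Pᶜ.card : ℝ) * a' ≤ 0 := by
          rw [h4]
          exact mul_nonpos_of_nonpos_of_nonneg (by linarith) (by positivity)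
        calc (Pᶜ.card : ℝ) * (a' * ((N : ℝ) ^ P.card * N)) =
            (Pᶜ.card * a') * ((N : ℝ) ^ P.card * N) := by ring
          _ ≤ 0 := mul_nonpos_of_nonpos_of_nonneg h6 (by positivity)
          _ ≤ _ := by positivity
    exact le_of_mul_le_mul_left h5 hpos'

theorem choose_le (M k : ℕ) (hk : 0 < k) : (M.choose k : ℝ) ≤ (Real.exp 1 * M / k) ^ k := by
  have hk0 : (0 : ℝ) < k := by exact_mod_cast hk
  have h1 : (M.choose k : ℝ) ≤ (M : ℝ) ^ k / (k.factorial : ℝ) := Nat.choose_le_pow_div k M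
  have h2 : (k : ℝ) ^ k / (k.factorial : ℝ) ≤ Real.exp k :=
    Real.pow_div_factorial_le_exp (k : ℝ) hk0.le k
  have hf : (0 : ℝ) < k.factorial := by exact_mod_cast Nat.factorial_pos k
  calc (M.choose k : ℝ) ≤ (M : ℝ) ^ k / (k.factorial : ℝ) := h1
    _ = ((k : ℝ) ^ k / (k.factorial : ℝ)) * ((M : ℝ) / k) ^ k := by
        rw [div_pow]
        field_simp
    _ ≤ Real.exp k * ((M : ℝ) / k) ^ k := by gcongr
    _ = _ := by
        rw [show Real.exp (k : ℝ) = Real.exp 1 ^ k by rw [← Real.exp_nat_mul, mul_one], ← mul_pow]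
        congr 1
        ring

theorem cnt_eq' {X A : Type} [Fintype X] [DecidableEq A] (f : X → A) (a : A) :
    cnt f a = (univ.filter fun x => f x = a).card := by
  unfold cnt
  congr!

/-- one set `U` -/
theorem one_U {n m : ℕ} (Δ t : ℕ) (hm : 0 < m) (ht : 0 < t) (v : HE m → Fin n)
    (hv : ∀ x, cnt v x ≤ Δ) (U : Finset (Fin n)) :
    ((univ.filter fun π : Equiv.Perm (HE m) => t ≤ eU v π U).card : ℝ) ≤
      (Real.exp 1 * (Δ * U.card) ^ 2 / (4 * t * m)) ^ t * ((2 * m).factorial : ℝ) := by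
  have hm0 : (0 : ℝ) < m := by exact_mod_cast hm
  have ht0 : (0 : ℝ) < t := by exact_mod_cast ht
  have hcard : Fintype.card (HE m) = 2 * m := by
    simp [HE, mul_comm]
  set H : Finset (HE m) := univ.filter fun h => v h ∈ U with hH
  have hHc : H.card ≤ Δ * U.card := by
    have h1 : H.card = ∑ x ∈ U, (H.filter fun h => v h = x).card :=
      Finset.card_eq_sum_card_fiberwise fun h hh => Finset.mem_coe.2 (Finset.mem_filter.1 hh).2
    rw [h1]
    refine (Finset.sum_le_sum (fun x _ => ?_ : ∀ x ∈ U, (H.filter fun h => v h = x).card ≤ Δ)).trans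
      (le_of_eq ?_)
    · refine le_trans (Finset.card_le_card ?_) (le_of_eq_of_le (cnt_eq' v x).symm (hv x))
      intro h hh
      rw [Finset.mem_filter] at hh ⊢
      exact ⟨Finset.mem_univ _, hh.2⟩
    · rw [Finset.sum_const, smul_eq_mul, mul_comm]
  have hsub : (univ.filter fun π : Equiv.Perm (HE m) => t ≤ eU v π U) ⊆
      ((univ : Finset (Fin m)).powersetCard t).biUnion fun T =>
        univ.filter fun π : Equiv.Perm (HE m) => ∀ x ∈ T ×ˢ (univ : Finset Bool), π x ∈ H := by
    intro π hπ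
    have hπ' : t ≤ eU v π U := (Finset.mem_filter.1 hπ).2
    unfold eU at hπ'
    obtain ⟨T, hT, hTc⟩ := Finset.exists_subset_card_eq hπ'
    rw [Finset.mem_biUnion]
    refine ⟨T, Finset.mem_powersetCard.2 ⟨Finset.subset_univ _, hTc⟩, ?_⟩
    rw [Finset.mem_filter]
    refine ⟨Finset.mem_univ _, ?_⟩
    rintro ⟨j, b⟩ hjb
    have hj : j ∈ T := (Finset.mem_product.1 hjb).1
    have h2 := (Finset.mem_filter.1 (hT hj)).2
    rw [hH, Finset.mem_filter]
    refine ⟨Finset.mem_univ _, ?_⟩
    cases b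
    · exact h2.1
    · exact h2.2
  have hone : ∀ T ∈ (univ : Finset (Fin m)).powersetCard t,
      ((univ.filter fun π : Equiv.Perm (HE m) =>
        ∀ x ∈ T ×ˢ (univ : Finset Bool), π x ∈ H).card : ℝ) ≤
      ((Δ * U.card : ℝ) / (2 * m)) ^ (2 * t) * ((2 * m).factorial : ℝ) := by
    intro T hT
    have h1 := perm_bound H (T ×ˢ (univ : Finset Bool))
    have hTc : (T ×ˢ (univ : Finset Bool)).card = 2 * t := by
      rw [Finset.card_product, (Finset.mem_powersetCard.1 hT).2, Finset.card_univ, Fintype.card_bool,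
        mul_comm]
    rw [hTc, hcard] at h1
    push_cast at h1
    rw [div_pow, div_mul_eq_mul_div, le_div_iff₀ (by positivity)]
    refine h1.trans ?_
    refine mul_le_mul_of_nonneg_right ?_ (by positivity)
    exact pow_le_pow_left₀ (by positivity) (by exact_mod_cast hHc) _
  have h1 : ((univ.filter fun π : Equiv.Perm (HE m) => t ≤ eU v π U).card : ℝ) ≤
      ∑ T ∈ (univ : Finset (Fin m)).powersetCard t, ((univ.filter fun π : Equiv.Perm (HE m) =>
        ∀ x ∈ T ×ˢ (univ : Finset Bool), π x ∈ H).card : ℝ) := by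
    have h2 := (Finset.card_le_card hsub).trans Finset.card_biUnion_le
    exact_mod_cast h2
  refine h1.trans ((Finset.sum_le_sum hone).trans ?_)
  rw [Finset.sum_const, Finset.card_powersetCard, Finset.card_univ, Fintype.card_fin, nsmul_eq_mul,
    ← mul_assoc]
  refine mul_le_mul_of_nonneg_right ?_ (by positivity)
  calc (m.choose t : ℝ) * ((Δ * U.card : ℝ) / (2 * m)) ^ (2 * t) ≤
      (Real.exp 1 * m / t) ^ t * ((Δ * U.card : ℝ) / (2 * m)) ^ (2 * t) :=
        mul_le_mul_of_nonneg_right (choose_le m t ht) (by positivity)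
    _ = (Real.exp 1 * m / t * ((Δ * U.card : ℝ) / (2 * m)) ^ 2) ^ t := by
        rw [pow_mul, ← mul_pow]
    _ = _ := by
        congr 1
        field_simp
        ring

theorem t_SPA : S_SPA := by
  intro K hK
  refine ⟨⌈80 * (K + 3)⌉₊, fun r hr Δ => ?_⟩
  obtain ⟨N₀, hN₀⟩ : ∃ N₀ : ℕ, ∀ n ≥ N₀, 6 * (Δ : ℝ) ^ 2 ≤ (n : ℝ) ^ (1 / 40 : ℝ) := by
    have h1 := (tendsto_rpow_atTop (show (0 : ℝ) < 1 / 40 by norm_num)).comp
      (tendsto_natCast_atTop_atTop (R := ℝ))
    exact Filter.eventually_atTop.1 (h1.eventually_ge_atTop (6 * (Δ : ℝ) ^ 2))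
  refine ⟨N₀ + 1, fun n m hn hm v hv => ?_⟩
  have hr' : 80 * (K + 3) ≤ (r : ℝ) := (Nat.le_ceil _).trans (by exact_mod_cast hr)
  have hr1 : (1 : ℝ) ≤ r := by linarith
  have hn1 : 1 ≤ n := by omega
  have hn1' : (1 : ℝ) ≤ n := by exact_mod_cast hn1
  have hn0 : (0 : ℝ) < n := by linarith
  have hm0 : 0 < m := by omega
  have hm0' : (0 : ℝ) < m := by exact_mod_cast hm0
  set q : ℝ := (n : ℝ) ^ (-(K + 3)) with hq
  have hq0 : 0 < q := by positivity
  -- the bound for one set
  have hone : ∀ U : Finset (Fin n), U.Nonempty → (U.card : ℝ) ≤ 2 * (n : ℝ) ^ (19 / 20 : ℝ) →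
      ((univ.filter fun π : Equiv.Perm (HE m) => r * U.card ≤ 2 * eU v π U).card : ℝ) ≤
        q ^ U.card * ((2 * m).factorial : ℝ) := by
    intro U hU hUc
    set s := U.card with hs
    have hs1 : 1 ≤ s := Finset.card_pos.2 hU
    have hs1' : (1 : ℝ) ≤ s := by exact_mod_cast hs1
    set t : ℕ := (r * s + 1) / 2 with ht
    have hr1' : 1 ≤ r := by exact_mod_cast hr1
    have hrs : 1 ≤ r * s := Nat.mul_pos hr1' hs1
    have ht2 : r * s ≤ 2 * t := by omega
    have ht1 : 0 < t := by omega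
    have ht2' : (r : ℝ) * s ≤ 2 * t := by exact_mod_cast ht2
    have ht0' : (0 : ℝ) < t := by exact_mod_cast ht1
    have hle : ((univ.filter fun π : Equiv.Perm (HE m) => r * s ≤ 2 * eU v π U).card : ℝ) ≤
        ((univ.filter fun π : Equiv.Perm (HE m) => t ≤ eU v π U).card : ℝ) := by
      have : (univ.filter fun π : Equiv.Perm (HE m) => r * s ≤ 2 * eU v π U) ⊆
          (univ.filter fun π : Equiv.Perm (HE m) => t ≤ eU v π U) := by
        intro π hπ
        rw [Finset.mem_filter] at hπ ⊢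
        refine ⟨hπ.1, ?_⟩
        have := hπ.2
        omega
      exact_mod_cast Finset.card_le_card this
    refine hle.trans ((one_U Δ t hm0 ht1 v hv U).trans ?_)
    refine mul_le_mul_of_nonneg_right ?_ (by positivity)
    have hb : Real.exp 1 * ((Δ : ℝ) * s) ^ 2 / (4 * t * m) ≤ (n : ℝ) ^ (-(1 / 40) : ℝ) := by
      have hmn : (n : ℝ) ≤ 2 * m := by exact_mod_cast hm
      have h1 : (r : ℝ) * s * n ≤ 4 * t * m := by
        calc (r : ℝ) * s * n ≤ (2 * t) * (2 * m) := mul_le_mul ht2' hmn (by positivity) (by positivity)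
          _ = _ := by ring
      have h2 : Real.exp 1 * ((Δ : ℝ) * s) ^ 2 / (4 * t * m) ≤
          Real.exp 1 * ((Δ : ℝ) * s) ^ 2 / (r * s * n) := by
        apply div_le_div_of_nonneg_left (by positivity) (by positivity) h1
      refine h2.trans ?_
      have h3 : Real.exp 1 * ((Δ : ℝ) * s) ^ 2 / (r * s * n) = Real.exp 1 * Δ ^ 2 / r * (s / n) := by
        field_simp
      rw [h3]
      have h4 : (s : ℝ) / n ≤ 2 * (n : ℝ) ^ (-(1 / 20) : ℝ) := by
        rw [div_le_iff₀ hn0]
        refine hUc.trans (le_of_eq ?_)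
        rw [mul_assoc]
        congr 1
        nth_rewrite 3 [← Real.rpow_one (n : ℝ)]
        rw [← Real.rpow_add hn0]
        norm_num
      have h5 : Real.exp 1 * (Δ : ℝ) ^ 2 / r ≤ 3 * (Δ : ℝ) ^ 2 := by
        rw [div_le_iff₀ (by linarith)]
        have h6 : Real.exp 1 ≤ 3 := by
          have := Real.exp_one_lt_d9
          linarith
        calc Real.exp 1 * (Δ : ℝ) ^ 2 ≤ 3 * (Δ : ℝ) ^ 2 :=
              mul_le_mul_of_nonneg_right h6 (by positivity)
          _ ≤ 3 * (Δ : ℝ) ^ 2 * r := le_mul_of_one_le_right (by positivity) hr1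
      have h7 : (6 : ℝ) * (Δ : ℝ) ^ 2 ≤ (n : ℝ) ^ (1 / 40 : ℝ) := hN₀ n (by omega)
      calc Real.exp 1 * (Δ : ℝ) ^ 2 / r * (s / n) ≤
          3 * (Δ : ℝ) ^ 2 * (2 * (n : ℝ) ^ (-(1 / 20) : ℝ)) :=
            mul_le_mul h5 h4 (by positivity) (by positivity)
        _ = (6 * (Δ : ℝ) ^ 2) * (n : ℝ) ^ (-(1 / 20) : ℝ) := by ring
        _ ≤ (n : ℝ) ^ (1 / 40 : ℝ) * (n : ℝ) ^ (-(1 / 20) : ℝ) :=
            mul_le_mul_of_nonneg_right h7 (by positivity)
        _ = _ := by
            rw [← Real.rpow_add hn0]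
            norm_num
    calc (Real.exp 1 * ((Δ : ℝ) * s) ^ 2 / (4 * t * m)) ^ t ≤ ((n : ℝ) ^ (-(1 / 40) : ℝ)) ^ t :=
          pow_le_pow_left₀ (by positivity) hb t
      _ = (n : ℝ) ^ (-(1 / 40) * (t : ℝ)) := by
          rw [← Real.rpow_natCast, ← Real.rpow_mul hn0.le]
      _ ≤ (n : ℝ) ^ (-(K + 3) * (s : ℝ)) := by
          apply Real.rpow_le_rpow_of_exponent_le hn1'
          have e1 : (K + 3) * (s : ℝ) ≤ (r / 80) * s :=
            mul_le_mul_of_nonneg_right (by linarith) (by positivity)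
          linarith
      _ = q ^ s := by
          rw [hq, ← Real.rpow_natCast, ← Real.rpow_mul hn0.le]
  -- the union
  have hsub : (univ.filter fun π : Equiv.Perm (HE m) => ∃ U : Finset (Fin n), U.Nonempty ∧
      (U.card : ℝ) ≤ 2 * (n : ℝ) ^ (19 / 20 : ℝ) ∧ r * U.card ≤ 2 * eU v π U) ⊆
      ((univ : Finset (Fin n)).powerset.filter fun U => U.Nonempty ∧
        (U.card : ℝ) ≤ 2 * (n : ℝ) ^ (19 / 20 : ℝ)).biUnion fun U =>
          univ.filter fun π : Equiv.Perm (HE m) => r * U.card ≤ 2 * eU v π U := by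
    intro π hπ
    obtain ⟨U, hU1, hU2, hU3⟩ := (Finset.mem_filter.1 hπ).2
    rw [Finset.mem_biUnion]
    exact ⟨U, Finset.mem_filter.2 ⟨Finset.mem_powerset.2 (Finset.subset_univ _), hU1, hU2⟩,
      Finset.mem_filter.2 ⟨Finset.mem_univ _, hU3⟩⟩
  have h1 : ((univ.filter fun π : Equiv.Perm (HE m) => ∃ U : Finset (Fin n), U.Nonempty ∧
      (U.card : ℝ) ≤ 2 * (n : ℝ) ^ (19 / 20 : ℝ) ∧ r * U.card ≤ 2 * eU v π U).card : ℝ) ≤
      ∑ U ∈ (univ : Finset (Fin n)).powerset.filter fun U => U.Nonempty ∧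
        (U.card : ℝ) ≤ 2 * (n : ℝ) ^ (19 / 20 : ℝ),
        ((univ.filter fun π : Equiv.Perm (HE m) => r * U.card ≤ 2 * eU v π U).card : ℝ) := by
    have h2 := (Finset.card_le_card hsub).trans Finset.card_biUnion_le
    exact_mod_cast h2
  refine h1.trans ?_
  have h2 : ∑ U ∈ (univ : Finset (Fin n)).powerset.filter fun U => U.Nonempty ∧
        (U.card : ℝ) ≤ 2 * (n : ℝ) ^ (19 / 20 : ℝ),
        ((univ.filter fun π : Equiv.Perm (HE m) => r * U.card ≤ 2 * eU v π U).card : ℝ) ≤
      ∑ U ∈ (univ : Finset (Fin n)).powerset, (if U.card = 0 then 0 else q ^ U.card) *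
        ((2 * m).factorial : ℝ) := by
    refine (Finset.sum_le_sum fun U hU => ?_).trans (Finset.sum_le_sum_of_subset_of_nonneg
      (Finset.filter_subset _ _) fun U _ _ => by split_ifs <;> positivity)
    obtain ⟨_, hU1, hU2⟩ := Finset.mem_filter.1 hU
    rw [if_neg (Finset.card_pos.2 hU1).ne']
    exact hone U hU1 hU2
  refine h2.trans ?_
  rw [← Finset.sum_mul]
  refine mul_le_mul_of_nonneg_right ?_ (by positivity)
  rw [Finset.sum_powerset_apply_card (fun s : ℕ => (if s = 0 then (0 : ℝ) else q ^ s))]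
  rw [Finset.card_univ, Fintype.card_fin, Finset.sum_range_succ']
  simp only [if_true, smul_zero, add_zero, Nat.succ_ne_zero, if_false, Nat.add_eq_zero_iff, one_ne_zero,
    and_false]
  have hnq : (n : ℝ) * q ≤ 1 := by
    have : (n : ℝ) * q = (n : ℝ) ^ (-(K + 2)) := by
      rw [hq]
      nth_rewrite 1 [← Real.rpow_one (n : ℝ)]
      rw [← Real.rpow_add hn0]
      congr 1
      ring
    rw [this]
    exact Real.rpow_le_one_of_one_le_of_nonpos hn1' (by linarith)
  have h3 : ∀ s ∈ Finset.range n, n.choose (s + 1) • q ^ (s + 1) ≤ n * q := by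
    intro s _
    rw [nsmul_eq_mul]
    calc (n.choose (s + 1) : ℝ) * q ^ (s + 1) ≤ (n : ℝ) ^ (s + 1) * q ^ (s + 1) := by
          refine mul_le_mul_of_nonneg_right ?_ (by positivity)
          exact_mod_cast Nat.choose_le_pow n (s + 1)
      _ = (n * q) ^ (s + 1) := by rw [mul_pow]
      _ = (n * q) ^ s * (n * q) := by rw [pow_succ]
      _ ≤ 1 * (n * q) := by
          refine mul_le_mul_of_nonneg_right ?_ (by positivity)
          exact pow_le_one₀ (by positivity) hnq
      _ = _ := one_mul _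
  refine (Finset.sum_le_sum h3).trans ?_
  rw [Finset.sum_const, Finset.card_range, nsmul_eq_mul]
  have h4 : (n : ℝ) * (n * q) = (n : ℝ) ^ (-(K + 1)) := by
    rw [hq]
    nth_rewrite 1 2 [← Real.rpow_one (n : ℝ)]
    rw [← Real.rpow_add hn0, ← Real.rpow_add hn0]
    congr 1
    ring
  rw [h4]
  exact Real.rpow_le_rpow_of_exponent_le hn1' (by linarith)

end Pool.Agent.Run7.h594.DS
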